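import Mathlib

namespace Pool.Agent.Results.MP_313e16_pr.NotMonotone

open Finset Matrix Filter Topology

/-- states of the `N = n + 3` players -/
abbrev St (n : ℕ) := Fin (n + 3) → Bool

/-- `m_i(x) = 2 x_{i-1} + x_{i+1}`, cyclic indices -/
def nb {n : ℕ} (x : St n) (i : Fin (n + 3)) : Fin 4 :=
  if x (i - 1) then (if x (i + 1) then 3 else 2) else (if x (i + 1) then 1 else 0)

/-- probability of the move `x → x^i` -/
def rate {K : Type} [Field K] {n : ℕ} (p : Fin 4 → K) (x : St n) (i : Fin (n + 3)) : K :=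
  (if x i then 1 - p (nb x i) else p (nb x i)) / ((n : K) + 3)

/-- the transition matrix -/
def trans {K : Type} [Field K] (n : ℕ) (p : Fin 4 → K) : Matrix (St n) (St n) K :=
  Matrix.of fun x y => if y = x then 1 - ∑ i, rate p x i
    else ∑ i, if y = Function.update x i (!x i) then rate p x i else 0

def IsProb {S : Type} [Fintype S] (w : S → ℝ) : Prop := (∀ x, 0 ≤ w x) ∧ ∑ x, w x = 1

/-- `w` is the unique stationary distribution of `P`, and the chain converges to `w` from every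
initial distribution -/
def Ergodic {S : Type} [Fintype S] [DecidableEq S] (P : Matrix S S ℝ) (w : S → ℝ) : Prop :=
  IsProb w ∧ w ᵥ* P = w ∧ (∀ v, IsProb v → v ᵥ* P = v → v = w) ∧
    ∀ v, IsProb v → Tendsto (fun k : ℕ => v ᵥ* P ^ k) atTop (𝓝 w)

/-- the mean profit `μ^N` computed from the stationary distribution `w` -/
def profit {K : Type} [Field K] {n : ℕ} (p : Fin 4 → K) (w : St n → K) : K :=
  1 / ((n : K) + 3) * ∑ x, w x * ∑ i, (p (nb x i) - (1 - p (nb x i)))

section Doeblin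
variable {S : Type} [Fintype S] [DecidableEq S]

omit [DecidableEq S] in
lemma l1 (A : Matrix S S ℝ) (hA : ∀ x y, 0 ≤ A x y) (c : ℝ) (hs : ∀ x, ∑ y, A x y = c)
    (v : S → ℝ) : ∑ y, |(v ᵥ* A) y| ≤ c * ∑ x, |v x| := by
  calc ∑ y, |(v ᵥ* A) y| ≤ ∑ y, ∑ x, |v x| * A x y := by
        apply Finset.sum_le_sum
        intro y _
        simp only [Matrix.vecMul, dotProduct]
        refine (Finset.abs_sum_le_sum_abs _ _).trans (le_of_eq ?_)
        apply Finset.sum_congr rfl
        intro x _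
        rw [abs_mul, abs_of_nonneg (hA x y)]
    _ = c * ∑ x, |v x| := by
        rw [Finset.sum_comm, Finset.mul_sum]
        apply Finset.sum_congr rfl
        intro x _
        rw [← Finset.mul_sum, hs, mul_comm]

lemma contr (Q : Matrix S S ℝ) (hQ : ∀ x y, 0 ≤ Q x y) (hs : ∀ x, ∑ y, Q x y = 1) (z : S) (e : ℝ)
    (he : ∀ x, e ≤ Q x z) (v : S → ℝ) (hv : ∑ x, v x = 0) :
    ∑ y, |(v ᵥ* Q) y| ≤ (1 - e) * ∑ x, |v x| := by
  have h := l1 (Matrix.of fun x y => Q x y - if y = z then e else 0) (by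
    intro x y
    simp only [Matrix.of_apply]
    split_ifs with h
    · subst h; linarith [he x]
    · linarith [hQ x y]) (1 - e) (by
    intro x
    simp [Finset.sum_sub_distrib, hs]) v
  refine le_trans (le_of_eq ?_) h
  apply Finset.sum_congr rfl
  intro y _
  congr 1
  simp only [Matrix.vecMul, dotProduct, Matrix.of_apply, mul_sub, Finset.sum_sub_distrib]
  rw [← Finset.sum_mul, hv]; simp

lemma pow_stoch (P : Matrix S S ℝ) (hP : ∀ x y, 0 ≤ P x y) (hs : ∀ x, ∑ y, P x y = 1) (k : ℕ) :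
    (∀ x y, 0 ≤ (P ^ k) x y) ∧ ∀ x, ∑ y, (P ^ k) x y = 1 := by
  induction k with
  | zero =>
    refine ⟨fun x y => ?_, fun x => ?_⟩
    · simp only [pow_zero, Matrix.one_apply]; split_ifs <;> norm_num
    · simp [Matrix.one_apply]
  | succ k ih =>
    refine ⟨fun x y => ?_, fun x => ?_⟩
    · rw [pow_succ, Matrix.mul_apply]
      exact Finset.sum_nonneg fun j _ => mul_nonneg (ih.1 _ _) (hP _ _)
    · simp only [pow_succ, Matrix.mul_apply]
      rw [Finset.sum_comm]
      simp_rw [← Finset.mul_sum, hs, mul_one]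
      exact ih.2 x

omit [DecidableEq S] in
lemma sum_vecMul (A : Matrix S S ℝ) (hs : ∀ x, ∑ y, A x y = 1) (v : S → ℝ) :
    ∑ y, (v ᵥ* A) y = ∑ x, v x := by
  simp only [Matrix.vecMul, dotProduct]
  rw [Finset.sum_comm]
  simp_rw [← Finset.mul_sum, hs, mul_one]

lemma ergodic (P : Matrix S S ℝ) (hP : ∀ x y, 0 ≤ P x y) (hs : ∀ x, ∑ y, P x y = 1) (z : S)
    (hz : ∀ x, 0 < (P ^ 4) x z) (w : S → ℝ) (hw : IsProb w) (hst : w ᵥ* P = w) : Ergodic P w := by
  have hstk : ∀ (v : S → ℝ), v ᵥ* P = v → ∀ k : ℕ, v ᵥ* P ^ k = v := by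
    intro v hv k
    induction k with
    | zero => simp
    | succ k ih => rw [pow_succ, ← Matrix.vecMul_vecMul, ih, hv]
  have conv : ∀ v, IsProb v → Tendsto (fun k : ℕ => v ᵥ* P ^ k) atTop (𝓝 w) := by
    intro v hv
    obtain ⟨x0, -, hx0⟩ := Finset.exists_min_image Finset.univ (fun x => (P ^ 4) x z)
      ⟨z, Finset.mem_univ z⟩
    set e := (P ^ 4) x0 z with he
    have he0 : 0 < e := hz x0
    have h4 := pow_stoch P hP hs 4
    have he1 : e ≤ 1 := by
      rw [← h4.2 x0]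
      exact Finset.single_le_sum (f := fun y => (P ^ 4) x0 y) (fun y _ => h4.1 x0 y)
        (Finset.mem_univ z)
    set d : S → ℝ := v - w with hd
    have hd0 : ∑ x, d x = 0 := by simp [hd, Finset.sum_sub_distrib, hv.2, hw.2]
    have bound : ∀ k : ℕ, ∑ y, |(d ᵥ* P ^ k) y| ≤ (1 - e) ^ (k / 4) * ∑ x, |d x| := by
      intro k
      induction k using Nat.strong_induction_on with
      | _ k ih =>
        by_cases hk : k < 4
        · rw [Nat.div_eq_of_lt hk, pow_zero]
          exact l1 _ (pow_stoch P hP hs k).1 1 (pow_stoch P hP hs k).2 d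
        · obtain ⟨j, rfl⟩ : ∃ j, k = j + 4 := ⟨k - 4, by omega⟩
          rw [pow_add, ← Matrix.vecMul_vecMul]
          have h1 := contr (P ^ 4) h4.1 h4.2 z e (fun x => hx0 x (Finset.mem_univ x))
            (d ᵥ* P ^ j) (by rw [sum_vecMul _ (pow_stoch P hP hs j).2, hd0])
          have h2 := ih j (by omega)
          have h3 : (j + 4) / 4 = j / 4 + 1 := by omega
          rw [h3, pow_succ]
          calc _ ≤ _ := h1
            _ ≤ (1 - e) * ((1 - e) ^ (j / 4) * ∑ x, |d x|) :=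
              mul_le_mul_of_nonneg_left h2 (by linarith)
            _ = _ := by ring
    have lim : Tendsto (fun k : ℕ => (1 - e) ^ (k / 4) * ∑ x, |d x|) atTop (𝓝 0) := by
      have h1 := (tendsto_pow_atTop_nhds_zero_of_lt_one (r := 1 - e) (by linarith)
        (by linarith)).comp (Nat.tendsto_div_const_atTop (n := 4) (by norm_num))
      simpa using h1.mul_const (∑ x, |d x|)
    rw [tendsto_pi_nhds]
    intro y
    rw [tendsto_iff_norm_sub_tendsto_zero]
    refine squeeze_zero (fun k => norm_nonneg _) (fun k => ?_) lim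
    refine le_trans ?_ (bound k)
    have : (v ᵥ* P ^ k) y - w y = (d ᵥ* P ^ k) y := by
      rw [hd, Matrix.sub_vecMul, hstk w hst k]; rfl
    rw [this, Real.norm_eq_abs]
    exact Finset.single_le_sum (f := fun y => |(d ᵥ* P ^ k) y|) (fun y _ => abs_nonneg _)
      (Finset.mem_univ y)
  refine ⟨hw, hst, fun v hv hvs => ?_, conv⟩
  have h := conv v hv
  simp only [hstk v hvs] at h
  exact tendsto_nhds_unique tendsto_const_nhds h

omit [DecidableEq S] in
lemma pos_mul {A B : Matrix S S ℝ} (hA : ∀ x y, 0 ≤ A x y) (hB : ∀ x y, 0 ≤ B x y) {x y z : S}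
    (h1 : 0 < A x y) (h2 : 0 < B y z) : 0 < (A * B) x z := by
  rw [Matrix.mul_apply]
  exact lt_of_lt_of_le (mul_pos h1 h2) (Finset.single_le_sum (f := fun j => A x j * B j z)
    (fun j _ => mul_nonneg (hA _ _) (hB _ _)) (Finset.mem_univ y))

end Doeblin

lemma trans_cast (p : Fin 4 → ℚ) (x y : St 1) :
    trans 1 (fun j => (p j : ℝ)) x y = ((trans 1 p x y : ℚ) : ℝ) := by
  simp only [trans, rate, Matrix.of_apply]
  split_ifs
  · push_cast
    congr 1
    apply Finset.sum_congr rfl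
    intro i _
    split_ifs <;> simp
  · push_cast
    apply Finset.sum_congr rfl
    intro i _
    split_ifs <;> simp

lemma profit_cast (p : Fin 4 → ℚ) (w : St 1 → ℚ) :
    profit (fun j => (p j : ℝ)) (fun x => (w x : ℝ)) = ((profit p w : ℚ) : ℝ) := by
  simp only [profit]
  push_cast
  rfl

def Good (p : Fin 4 → ℚ) (w : St 1 → ℚ) : Prop :=
  (∀ q : St 1 × St 1, 0 ≤ trans 1 p q.1 q.2) ∧ (∀ x, ∑ y, trans 1 p x y = 1) ∧
  (∀ x i, 0 < trans 1 p x (Function.update x i false)) ∧ (∀ x, 0 ≤ w x) ∧ ∑ x, w x = 1 ∧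
  ∀ y, ∑ x, w x * trans 1 p x y = w y

lemma erg_of_good (p : Fin 4 → ℚ) (w : St 1 → ℚ) (h : Good p w) :
    Ergodic (trans 1 fun j => (p j : ℝ)) (fun x => (w x : ℝ)) := by
  obtain ⟨h1, h2, h3, h4, h5, h6⟩ := h
  have hP : ∀ x y, 0 ≤ trans 1 (fun j => (p j : ℝ)) x y := fun x y => by
    rw [trans_cast]; exact_mod_cast h1 (x, y)
  have hs : ∀ x, ∑ y, trans 1 (fun j => (p j : ℝ)) x y = 1 := fun x => by
    simp_rw [trans_cast]; exact_mod_cast h2 x
  have h3' : ∀ x i, 0 < trans 1 (fun j => (p j : ℝ)) x (Function.update x i false) := fun x i => by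
    rw [trans_cast]; exact_mod_cast h3 x i
  refine ergodic _ hP hs (fun _ => false) (fun x => ?_) _
    ⟨fun x => by show (0 : ℝ) ≤ (w x : ℝ); exact_mod_cast h4 x,
      by show ∑ x, (w x : ℝ) = 1; exact_mod_cast h5⟩ ?_
  · have e : (fun _ => false : St 1) = Function.update (Function.update (Function.update
        (Function.update x 0 false) 1 false) 2 false) 3 false := by
      funext i; fin_cases i <;> simp
    rw [e, pow_succ, pow_succ, pow_succ, pow_one]
    have q2 := (pow_stoch _ hP hs 2).1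
    have q3 := (pow_stoch _ hP hs 3).1
    rw [pow_succ, pow_one] at q2
    rw [pow_succ, pow_succ, pow_one] at q3
    exact pos_mul q3 hP (pos_mul q2 hP (pos_mul hP hP (h3' _ _) (h3' _ _)) (h3' _ _)) (h3' _ _)
  · funext y
    simp only [Matrix.vecMul, dotProduct]
    simp_rw [trans_cast]
    exact_mod_cast h6 y

def idx (x : St 1) : ℕ :=
  (if x 0 then 1 else 0) + (if x 1 then 2 else 0) + (if x 2 then 4 else 0) + (if x 3 then 8 else 0)

def pa : Fin 4 → ℚ := ![4 / 5, 9 / 10, 9 / 10, 1 / 20]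
def pb : Fin 4 → ℚ := ![19 / 20, 9 / 10, 9 / 10, 1 / 20]

def wa (x : St 1) : ℚ := (([741, 2964, 2964, 3344, 2964, 35188, 3344, 6764, 2964, 3344, 35188,
  6764, 3344, 6764, 6764, 356] : List ℚ).getD (idx x) 0) / 123761
def wb (x : St 1) : ℚ := (([99, 1881, 1881, 2489, 1881, 93499, 2489, 7961, 1881, 2489, 93499,
  7961, 2489, 7961, 7961, 419] : List ℚ).getD (idx x) 0) / 236840

lemma ga : Good pa wa := by
  refine ⟨?_, ?_, ?_, ?_, ?_, ?_⟩ <;> decide +kernel
lemma gb : Good pb wb := by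
  refine ⟨?_, ?_, ?_, ?_, ?_, ?_⟩ <;> decide +kernel
lemma cmp : profit pb wb < profit pa wa := by decide +kernel

theorem result : ∃ (n : ℕ) (j : Fin 4) (p p' : Fin 4 → ℝ) (w w' : St n → ℝ),
    (∀ i, 0 < p i ∧ p i < 1) ∧ (∀ i, 0 < p' i ∧ p' i < 1) ∧ (∀ i, i ≠ j → p i = p' i) ∧
    p j < p' j ∧ Ergodic (trans n p) w ∧ Ergodic (trans n p') w' ∧ profit p' w' < profit p w := by
  refine ⟨1, 0, fun j => (pa j : ℝ), fun j => (pb j : ℝ), fun x => (wa x : ℝ),
    fun x => (wb x : ℝ), ?_, ?_, ?_, ?_, erg_of_good _ _ ga, erg_of_good _ _ gb, ?_⟩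
  · intro i; fin_cases i <;> simp [pa] <;> norm_num
  · intro i; fin_cases i <;> simp [pb] <;> norm_num
  · intro i hi; fin_cases i <;> simp [pa, pb] at hi ⊢
  · simp [pa, pb]; norm_num
  · rw [profit_cast, profit_cast]; exact_mod_cast cmp

end Pool.Agent.Results.MP_313e16_pr.NotMonotone
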